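import Pool.Agent.Q28.FG.Corr

/-!
# Correspondences on surfaces: algebraically trivial generators of the image and nilpotence

Let `S` and `T` be complex projective surfaces, `T(S)` the kernel of the Albanese map on zero-cycles
of degree zero (rational coefficients), `p` and `r` the projectors on the transcendental motives
`t_2(S)` and `t_2(T)`, and `Φ ∈ CH^2(S × T)`.

* `r Φ p` is algebraically trivial if and only if the image `Φ_* T(S)` is generated by an
  algebraically trivial cycle `z` on some variety `V`: all its elements are of the form `Γ_* z`, `Γ` a
  correspondence from `V` to `T`; if and only if it is generated by countably many such cycles and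
  countably many families of zero-cycles parametrised by Jacobians of curves.
* If `S = T` and `Φ_* T(S)` is contained in a finitely generated submodule of `T(S)`, over the ring of
  self-correspondences, or if it is generated by countably many algebraically trivial cycles, then
  `Φ` is nilpotent on `T(S)`.
-/

open CategoryTheory AlgebraicGeometry

universe u v w

namespace Pool.Agent.Results.MP_31564d_ag.AlgebraicGenerators

open Pool.Agent.H914 Pool.Agent.H914.VarClass Pool.Agent.H914.VarClass.Obj Pool.Agent.W492.BB
  Pool.Agent.TH133 Pool.Agent.Q28.PV Pool.Agent.Q28.AL Pool.Agent.Q28.FG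

/-- **Algebraically trivial generators of the image of the Albanese kernel, and nilpotence.** Let `C`
be the Chow theory with rational coefficients and `H` a Weil cohomology theory on the smooth
projective varieties over the complex numbers (`hP`: known facts on algebraic cycles).

1. For surfaces `S`, `T` with projectors `p`, `r` on `t_2(S)`, `t_2(T)`, and `Φ ∈ CH^2(S × T)`,
  equivalent are: `r Φ p` (`comp (comp p Φ) r` in our notation) is algebraically trivial;
  `Φ_* T(S)` is generated by one algebraically trivial cycle; by countably many, and by images of
  Jacobians under countably many correspondences.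
2. For `Φ ∈ CH^2(S × S)`: if `Φ_* T(S)` is contained in a finitely generated submodule of `T(S)`, over
  `CH^2(S × S)`, then it is generated by countably (finitely) many algebraically trivial cycles; if
  it is generated by countably many algebraically trivial cycles, and by images of Jacobians, then
  `Φ` acts as a nilpotent endomorphism on `T(S)`. -/
theorem result {k : Type u} [Field k] {𝒱 : VarClass k} {C : TheoryData.{u, v, 0} 𝒱 ℚ}
    [IsChowProj C] {K : Type w} [Field K] {H : WeilTheoryData.{u, v, w} C K} [IsWeilProj H]
    (hP : Principles H) :
    (∀ (S T : 𝒱.Obj) (p : C.A (S.prod S)) (r : C.A (T.prod T)) (Φ : C.A (S.prod T)),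
      IsTransc H S p → IsTransc H T r → C.Deg 2 Φ →
      [AlgTriv H (S.prod T) 2 (C.comp (C.comp p Φ) r), OneGeneratorOfImage H (AlgTriv H) Φ,
        CountablyGeneratedImage H (AlgTriv H) Φ].TFAE) ∧
    ∀ (S : 𝒱.Obj) (p : C.A (S.prod S)) (Φ : C.A (S.prod S)), IsTransc H S p → C.Deg 2 Φ →
      (FinitelyGeneratedImage H Φ → CountablyGeneratedImage H (AlgTriv H) Φ) ∧
      (CountablyGeneratedImage H (AlgTriv H) Φ →
        ∃ N : ℕ, ∀ w, AlbKernel H S w → C.act (compList C S (List.replicate N Φ)) w = 0) :=
  ⟨fun S T p r Φ hp hr hΦ => ((corr_main hP).1 S T p r Φ hp hr hΦ).2, (corr_main hP).2⟩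

end Pool.Agent.Results.MP_31564d_ag.AlgebraicGenerators
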