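import Pool.Agent.Q28.FG.Corr

/-!
# Bloch's conjecture for correspondences on surfaces: homologically trivial generators of the image

Let `S` and `T` be complex projective surfaces, `T(S)` the kernel of the Albanese map on zero-cycles
of degree zero (rational coefficients), `p` and `r` the projectors on the transcendental motives
`t_2(S)` and `t_2(T)`, and `Φ ∈ CH^2(S × T)`. Then `[Φ]^{2,0} = 0` (that is, `r Φ p` is homologically
trivial) if and only if the image `Φ_* T(S)` is generated by a homologically trivial cycle `z` on some
variety `V`: all its elements are of the form `Γ_* z`, `Γ` a correspondence from `V` to `T`; if and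
only if it is generated by countably many such cycles and countably many families of zero-cycles
parametrised by Jacobians of curves.
-/

open CategoryTheory AlgebraicGeometry

universe u v w

namespace Pool.Agent.Results.MP_31564d_ag.HomologicalGenerators

open Pool.Agent.H914 Pool.Agent.H914.VarClass Pool.Agent.H914.VarClass.Obj Pool.Agent.W492.BB
  Pool.Agent.TH133 Pool.Agent.Q28.PV Pool.Agent.Q28.AL Pool.Agent.Q28.FG

/-- **Homologically trivial generators of the image of the Albanese kernel.** Let `C` be the Chow
theory with rational coefficients and `H` a Weil cohomology theory on the smooth projective varieties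
over the complex numbers (`hP`: known facts on algebraic cycles). For surfaces `S`, `T` with
projectors `p`, `r` on `t_2(S)`, `t_2(T)`, and `Φ ∈ CH^2(S × T)`, equivalent are: the class of
`r Φ p` (`comp (comp p Φ) r` in our notation) in cohomology vanishes, that is `[Φ]^{2,0} = 0`;
`Φ_* T(S)` is generated by one homologically trivial cycle; by countably many, and by images of
Jacobians under countably many correspondences. -/
theorem result {k : Type u} [Field k] {𝒱 : VarClass k} {C : TheoryData.{u, v, 0} 𝒱 ℚ}
    [IsChowProj C] {K : Type w} [Field K] {H : WeilTheoryData.{u, v, w} C K} [IsWeilProj H]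
    (hP : Principles H) (S T : 𝒱.Obj) (p : C.A (S.prod S)) (r : C.A (T.prod T))
    (Φ : C.A (S.prod T)) (hp : IsTransc H S p) (hr : IsTransc H T r) (hΦ : C.Deg 2 Φ) :
    [H.cl (C.comp (C.comp p Φ) r) = 0, OneGeneratorOfImage H (HomTriv H) Φ,
      CountablyGeneratedImage H (HomTriv H) Φ].TFAE :=
  ((corr_main hP).1 S T p r Φ hp hr hΦ).1

end Pool.Agent.Results.MP_31564d_ag.HomologicalGenerators
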