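import Pool.Agent.Q187.BC.Conv

/-!
# Bloch's conjecture for correspondences between surfaces dominated by products of two curves

Bloch's conjecture (Q1) predicts that the action of a correspondence between surfaces on the kernel
of the Albanese map is zero if its action on `H^(2,0)` is zero. We show that for the class of all
surfaces dominated by products of two curves it is equivalent to a statement on the algebraically
trivial cycles of codimension two on the threefolds `T × T × T`, `T` a curve.
-/

open CategoryTheory AlgebraicGeometry

universe u v w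

namespace Pool.Agent.Results.MP_31564d_ag.ProductsOfTwoCurves

open Pool.Agent.H914 Pool.Agent.H914.VarClass Pool.Agent.H914.VarClass.Obj Pool.Agent.W492.BB
  Pool.Agent.Q187.AJS Pool.Agent.Q187.BCS

open Pool.Agent.TH133 hiding tens

/-- **Bloch's conjecture and algebraically trivial cycles on products of three curves.** Let `C` be
the Chow theory with rational coefficients, `H` a Weil cohomology theory and `N` the family of the
kernels of the Abel-Jacobi maps on a class of smooth projective varieties closed under products,
`V` the subspaces `H^(2,0)` of the cohomology of surfaces (`IsH20`: Lefschetz' theorem on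
(1,1)-classes). Assume the theorem of Bloch and Srinivas on families of cycles over curves
(`FibreProperty`), the theorem on the kernel of the Abel-Jacobi map on algebraically trivial cycles
(`SpreadProperty`: Poincare's reducibility theorem), that all surfaces have a transcendental motive
`t_2(S)` (Murre; Kahn, Murre, Pedrini), and that two curves are covered by one curve
(`CommonCovers`). All this is true for complex varieties. The following are equivalent: Bloch's
conjecture for all pairs of surfaces dominated by products of two curves; for the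
self-correspondences of the surfaces `T × T`, `T` any curve; homologically trivial classes of
codimension two in the motives `h^1(T₁) ⊗ h^1(T₂) ⊗ h^1(T₃) ⊗ h^1(T₄)` are zero; every
algebraically trivial class of codimension two on `T₁ × T₂ × T₃` in the kernel of the Abel-Jacobi
map is a sum of pull-backs from the Albanese kernels of the surfaces `T₁ × T₂`, `T₁ × T₃`,
`T₂ × T₃`; the same with `T₁ = T₂ = T₃`. -/
theorem result {k : Type u} [Field k] {𝒱 : VarClass k} {C : TheoryData.{u, v, 0} 𝒱 ℚ}
    [IsChowProj C] {K : Type w} [Field K] {H : WeilTheoryData.{u, v, w} C K} [IsWeilProj H]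
    {N : Fam C} {V : ∀ X : 𝒱.Obj, H.A X → Prop} (hN : IsAbelJacobiKernel C H N)
    (hV : IsH20 C H V) (hF : FibreProperty C) (hG : SpreadProperty C H N)
    (hQ : ∀ S : 𝒱.Obj, S.dim = 2 → ∃ q, IsTranscendental C H S q) (hc : CommonCovers C) :
    List.TFAE [
      ∀ S R : 𝒱.Obj, S.dim = 2 → R.dim = 2 → Dominated C IsTwoCurves S →
        Dominated C IsTwoCurves R → BlochFor C H V N S R,
      ∀ T : 𝒱.Obj, T.dim = 1 → BlochFor C H V N (T.prod T) (T.prod T),
      ∀ (T₁ T₂ T₃ T₄ : 𝒱.Obj) (o₁ : C.A T₁) (o₂ : C.A T₂) (o₃ : C.A T₃) (o₄ : C.A T₄),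
        T₁.dim = 1 → T₂.dim = 1 → T₃.dim = 1 → T₄.dim = 1 → DegreeOne C o₁ → DegreeOne C o₂ →
        DegreeOne C o₃ → DegreeOne C o₄ → ∀ z : C.A (((T₁.prod T₂).prod T₃).prod T₄), C.Deg 2 z →
        Triv C H z → C.act (tens C (tens C (tens C (odd C o₁) (odd C o₂)) (odd C o₃))
          (odd C o₄)) z = 0,
      ∀ T₁ T₂ T₃ : 𝒱.Obj, T₁.dim = 1 → T₂.dim = 1 → T₃.dim = 1 →
        ∀ z : C.A ((T₁.prod T₂).prod T₃), AlgTriv C H 2 z → N.In 2 z → IsSumOfPullbacks C N z,
      ∀ T : 𝒱.Obj, T.dim = 1 → ∀ z : C.A ((T.prod T).prod T), AlgTriv C H 2 z → N.In 2 z →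
        IsSumOfPullbacks C N z] :=
  main_two hN hF hG hV hQ hc

end Pool.Agent.Results.MP_31564d_ag.ProductsOfTwoCurves
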