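import Pool.Agent.Q226.SC.BlochMain

set_option autoImplicit false

/-!
# Bloch's conjecture for correspondences reduces to simply connected surfaces
-/

namespace Pool.Agent.Results.MP_31564d_ag.SimplyConnectedSurfaces

open Pool.Agent.Q226.SC

/-- Over `ℂ`, the following are equivalent:

1. Bloch's conjecture (Q1) holds for all smooth projective surfaces `X` and all correspondences
`Γ ∈ CH²(X × X)`;

2. it holds for all simply connected smooth projective surfaces;

3. for all smooth projective surfaces `S, T` and all `Z ∈ CH²(S × T)`, `[Z]^* = 0` on holomorphic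
two-forms if and only if `Z_* = 0` on the kernel of the Albanese map of `S`. -/
theorem result (G : Geo) (C : Cycles G) (R : Corrs C) (F : BlochFacts R) :
    ((∀ X : G.Var, G.dim X = 2 → R.BlochFor X) ↔
      ∀ X : G.Var, G.dim X = 2 → G.SC X → R.BlochFor X) ∧
    ((∀ X : G.Var, G.dim X = 2 → R.BlochFor X) ↔
      ∀ S T : G.Var, G.dim S = 2 → G.dim T = 2 → ∀ Z : R.Cor S T, R.Hol Z ↔ R.Van Z) :=
  bloch_iff F

end Pool.Agent.Results.MP_31564d_ag.SimplyConnectedSurfaces
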